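import Pool.Agent.helper98.P2F.SpecC
import Pool.Agent.helper33.P2F.VEF

/-!
# p2f:CVEF (helper16): fixed quality: class places with times at most the first completion satisfy `VE`
-/

set_option autoImplicit false

open Complex Metric Set Filter Topology MeasureTheory
open Pool.Agent.helper98.ILF
open WP (it)
open HY (UD T S hd UN RM)
open PM
open P2 (SS FL FLS CLS FR TL)
open PL (TP LO PZ GJ INR PG DK ht tr DI CY hG cv hv cm BS DQ)
open P2B (VE)

noncomputable section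

namespace P2F

/-- the limit of `f^w` only depends on the germ of `w` along `U`. -/
theorem CVEF_congr {f : Polynomial ℂ} {R : ℝ} {x : ℕ → ℂ} {U : Ultrafilter ℕ} {H : ℕ → ℕ} {χ : ℂ → ℂ} {w w' : ℕ → ℕ} {G : ℂ → ℂ}
    (h : TL f R x U H χ w G) (hw : ∀ᶠ j in (U : Filter ℕ), w j = w' j) : TL f R x U H χ w' G := by
  refine ⟨?_, ?_⟩
  · filter_upwards [h.le, hw] with j h1 h2
    omega
  · have h1 := Metric.tendstoLocallyUniformlyOn_iff.1 h.cv
    rw [Metric.tendstoLocallyUniformlyOn_iff]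
    intro ε hε z hz
    obtain ⟨t, ht, h2⟩ := h1 ε hε z hz
    refine ⟨t, ht, ?_⟩
    filter_upwards [h2, hw] with j h3 h4 y hy
    rw [← h4]
    exact h3 y hy

/-- innerness on any line of class places, times smaller than the completion time. -/
theorem CVEF_lt (hOUT2 : P2A.OUT2_stmt) (f : Polynomial ℂ) (R : ℝ) (hS : SS f R) (μ : ℂ → ℂ) (x₀ : ℂ) (hT : TP f μ x₀) (P : ℕ → ℂ → ℕ → Prop)
    (hC : CLS f R μ x₀ P) (U : Ultrafilter ℕ) (hU : (U : Filter ℕ) ≤ atTop) (Q : ℕ → ℂ → ℕ → ℝ → Prop) (hQ : RQ f R Q) (a e : ℝ) (ha : 0 < a) (he : 0 < e) (t : ℕ → ℕ)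
    (hST : ∀ᶠ k in (U : Filter ℕ), SCT f R P Q a k (t k) e) (y : ℕ → ℂ) (hy : ∀ j, y j ∈ JJ f) (H w : ℕ → ℕ)
    (hP : ∀ᶠ j in (U : Filter ℕ), P j (y j) (H j)) (hw : ∀ᶠ j in (U : Filter ℕ), w j < t j ∧ j + w j ≤ H j)
    (χ G : ℂ → ℂ) (hFR : FR f R y U H χ) (hTL : TL f R y U H χ w G) : ∃ (p : ℂ) (φ : ℂ → ℂ), RM (χ '' UD) p φ ∧ INR φ G := by
  obtain ⟨ρ, hρ, hQ⟩ := hQ
  refine hOUT2 f R hS μ x₀ hT P hC y hy U (fun j => j) H χ hU hP hFR w G hTL ?_ a ha ?_ ρ hρ ⟨e, he, ?_⟩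
  · filter_upwards [hw] with j h1
    exact ⟨by omega, by omega⟩
  · filter_upwards [hw, hP, hST] with j h1 h2 h3
    intro v hv
    exact h3.los v (by omega) (H j - w j) (by omega) (y j) (hC.up _ _ _ _ h2 (by omega) (by omega))
  · filter_upwards [hw, hP, hST] with j h1 h2 h3
    intro u v huv hv hD
    have HQ := hQ (H j - w j + (v - u)) (it f u (y j)) (v - u) e (VEF_mem hS u _ (hy j)) hD
    refine h3.fst v (by omega) ⟨H j - w j, y j, u, v - u, by omega, by omega, by omega, ?_, HQ⟩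
    exact hC.up _ _ _ _ h2 (by omega) (by omega)

/-- innerness on any line of class places, times at most the completion time. -/
theorem CVEF_inn (hOUT2 : P2A.OUT2_stmt) (hCONI : CONI_stmt) (hTLX : P2.TLX_stmt) (f : Polynomial ℂ) (R : ℝ) (hS : SS f R) (μ : ℂ → ℂ) (x₀ : ℂ) (hT : TP f μ x₀)
    (P : ℕ → ℂ → ℕ → Prop) (hC : CLS f R μ x₀ P) (U : Ultrafilter ℕ) (hU : (U : Filter ℕ) ≤ atTop) (Q : ℕ → ℂ → ℕ → ℝ → Prop) (hQ : RQ f R Q) (a e : ℝ)
    (ha : 0 < a) (he : 0 < e) (t : ℕ → ℕ)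
    (hST : ∀ᶠ k in (U : Filter ℕ), SCT f R P Q a k (t k) e) (y : ℕ → ℂ) (hy : ∀ j, y j ∈ JJ f) (H w : ℕ → ℕ)
    (hP : ∀ᶠ j in (U : Filter ℕ), P j (y j) (H j)) (hw : ∀ᶠ j in (U : Filter ℕ), w j ≤ t j ∧ j + w j ≤ H j)
    (χ G : ℂ → ℂ) (hFR : FR f R y U H χ) (hTL : TL f R y U H χ w G) : ∃ (p : ℂ) (φ : ℂ → ℂ), RM (χ '' UD) p φ ∧ INR φ G := by
  have hor : ∀ᶠ j in (U : Filter ℕ), w j < t j ∨ w j = t j := hw.mono fun j hj => lt_or_eq_of_le hj.1
  rcases Ultrafilter.eventually_or.1 hor with h | h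
  · refine CVEF_lt hOUT2 f R hS μ x₀ hT P hC U hU Q hQ a e ha he t hST y hy H w hP ?_ χ G hFR hTL
    filter_upwards [h, hw] with j h1 h2
    exact ⟨h1, h2.2⟩
  · have ht1 : ∀ᶠ j in (U : Filter ℕ), 1 ≤ t j := by
      filter_upwards [hST] with j h1
      obtain ⟨n', x, T, m, -, h2, h3, -, -⟩ := h1.ret
      omega
    obtain ⟨G₁, hG₁⟩ := hTLX f R hS y hy U H χ hFR (fun j => w j - 1) (by
      filter_upwards [hw] with j h1
      omega)
    obtain ⟨p, φ, hRM, hIN⟩ := CVEF_lt hOUT2 f R hS μ x₀ hT P hC U hU Q hQ a e ha he t hST y hy H (fun j => w j - 1) hP (by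
      filter_upwards [h, hw, ht1] with j h1 h2 h3
      exact ⟨by omega, by omega⟩) χ G₁ hFR hG₁
    refine ⟨p, φ, hRM, ?_⟩
    refine hCONI f R hS y hy U H χ hFR (fun j => w j - 1) G₁ G hG₁ (CVEF_congr hTL ?_) p φ hRM hIN
    filter_upwards [h, ht1] with j h1 h2
    show w j = w j - 1 + 1
    omega

theorem CVEF (hOUT2 : P2A.OUT2_stmt) (hCONI : CONI_stmt) (hTLX : P2.TLX_stmt) : CVEF_stmt := by
  intro f R hS μ x₀ hT P hC U hU Q hQ a e ha he t hST y n w hy hP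
  have hPl : ∀ᶠ j in (U : Filter ℕ), P j (y j) (n j + w j) := hP.mono fun j hj => hj.2.2
  refine ⟨?_, ?_, ?_, ?_, ?_, ?_⟩
  · exact hC.fl U (fun j => j) (fun j => n j + w j) y hU hU hPl
  · intro w' hw'
    refine hC.fl U (fun j => j) (fun j => j + w' j) y hU hU ?_
    filter_upwards [hP, hw'] with j h1 h2
    exact hC.up _ _ _ _ h1.2.2 (by omega) (by omega)
  · exact hP.mono fun j hj => hj.1
  · filter_upwards [hP, hST] with j h1 h2
    intro n' hn' v hv hle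
    exact h2.los v (by omega) n' hn' (y j) (hC.up _ _ _ _ h1.2.2 (by omega) hle)
  · intro χ G w' hFR hw' hTL
    refine CVEF_inn hOUT2 hCONI hTLX f R hS μ x₀ hT P hC U hU Q hQ a e ha he t hST y hy (fun j => n j + w j) w' hPl ?_ χ G hFR hTL
    filter_upwards [hP, hw'] with j h1 h2
    exact ⟨by omega, by omega⟩
  · intro χ G w' hFR hw' hTL
    refine CVEF_inn hOUT2 hCONI hTLX f R hS μ x₀ hT P hC U hU Q hQ a e ha he t hST y hy (fun j => j + w' j) w' ?_ ?_ χ G hFR hTL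
    · filter_upwards [hP, hw'] with j h1 h2
      exact hC.up _ _ _ _ h1.2.2 (by omega) (by omega)
    · filter_upwards [hP, hw'] with j h1 h2
      exact ⟨by omega, by omega⟩

end P2F
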